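import Mathlib

/-!
# Symmetric or exterior powers and functoriality for products of GL(N): definitions

Known facts on the cuspidal automorphic representations of the groups `GL(n)` over a number field
`K` and on their Langlands parameters at all places.
-/

namespace Pool.H66.S2

open Filter Topology

noncomputable section

/-! ## Symmetric functions -/

/-- The complete homogeneous symmetric function of degree `k` of a finite multiset of complex
numbers: the coefficient of `T ^ k` in the product of the series `1 / (1 - a T)`. -/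
def hs (k : ℕ) (X : Multiset ℂ) : ℂ :=
  PowerSeries.coeff k (X.map fun a => (PowerSeries.mk fun n => a ^ n : PowerSeries ℂ)).prod

/-- A sequence extended by `0` to the negative integers. -/
def sz {R : Type} [Zero R] (a : ℕ → R) (n : ℤ) : R := if 0 ≤ n then a n.toNat else 0

/-- The Jacobi-Trudi determinant `det (a (lam i - i + j))`. -/
def JT {R : Type} [CommRing R] (a : ℕ → R) {r : ℕ} (lam : Fin r → ℕ) : R :=
  (Matrix.of fun i j : Fin r => sz a ((lam i : ℤ) - (i : ℤ) + (j : ℤ))).det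

/-- The Schur function of the partition `lam` of a finite multiset of complex numbers: the
character of the Schur functor `S_lam` at a matrix with these eigenvalues. -/
def schur {r : ℕ} (lam : Fin r → ℕ) (X : Multiset ℂ) : ℂ := JT (fun k => hs k X) lam

/-! ## Automorphic representations and their parameters -/

/-- Cuspidal automorphic representations of the groups `GL(n, 𝔸_K)`, `n ≥ 1`, and their local
parameters at all places of the number field `K`. -/
structure AData where
  /-- The places of `K`. -/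
  Pl : Type
  /-- The Weil group of `K_v`. -/
  W : Pl → Type
  [grp : ∀ v, Group (W v)]
  /-- The absolute value of the Weil group. -/
  ab : ∀ v, W v →* ℝ
  ab_pos : ∀ v g, 0 < ab v g
  /-- A Frobenius element, of absolute value `1 / q_v` (any element of absolute value `< 1` if
  `v` is archimedean). -/
  Fr : ∀ v, W v
  Fr_lt : ∀ v, ab v (Fr v) < 1
  /-- The cuspidal automorphic representations. -/
  Cusp : Type
  /-- `σ` is a representation of `GL(deg σ)`. -/
  deg : Cusp → ℕ
  deg_pos : ∀ σ, 0 < deg σ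
  /-- The parameter of `σ` at `v` is the sum over `n` of `ψ_n ⊗ Sym^n`, where `ψ_n` is a
  semisimple representation of the Weil group and `Sym^n` is the irreducible representation of
  `SL(2, ℂ)` of dimension `n + 1` (`ψ_n = 0` for `n > 0` if `v` is archimedean);
  `loc σ v n g` is the multiset of the eigenvalues of `ψ_n(g)`. -/
  loc : Cusp → ∀ v, ℕ → W v → Multiset ℂ

attribute [instance] AData.grp

/-- The points: elements `(g, diag (s, 1/s))` of the groups `W_v × SL(2, ℂ)`. -/
structure AData.Pt (A : AData) where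
  /-- the place -/
  v : A.Pl
  /-- the element of the Weil group -/
  g : A.W v
  /-- the element of the torus -/
  s : ℂˣ

/-- Powers of a point. -/
def AData.Pt.pow {A : AData} (p : A.Pt) (n : ℤ) : A.Pt := ⟨p.v, p.g ^ n, p.s ^ n⟩

/-- The point `(Fr_v, 1)`. -/
def AData.frob (A : AData) (v : A.Pl) : A.Pt := ⟨v, A.Fr v, 1⟩

/-- The eigenvalues of the parameter of `σ` at a point. -/
def AData.eig (A : AData) (σ : A.Cusp) (p : A.Pt) : Multiset ℂ :=
  ∑ n ∈ Finset.range (A.deg σ), ∑ i ∈ Finset.range (n + 1),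
    (A.loc σ p.v n p.g).map fun a => a * (p.s : ℂ) ^ ((n : ℤ) - 2 * (i : ℤ))

/-- The trace of the parameter of `σ` at a point. -/
def AData.tr (A : AData) (σ : A.Cusp) (p : A.Pt) : ℂ := (A.eig σ p).sum

/-- The eigenvalues of the parameter of an isobaric representation (a finite multiset of cuspidal
representations) at a point. -/
def AData.eigs (A : AData) (P : Multiset A.Cusp) (p : A.Pt) : Multiset ℂ :=
  (P.map fun σ => A.eig σ p).sum

/-- `σ` is tempered at the Frobenius elements. -/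
def AData.Temp (A : AData) (σ : A.Cusp) : Prop := ∀ v, ∀ a ∈ A.eig σ (A.frob v), ‖a‖ = 1

/-- The numbers `c j` satisfy no nontrivial relation `∏ (c j) ^ (a j) = 1` with `∑ a j = 0` and
`∑ |a j| ≤ M`. -/
def Gen {m : ℕ} (M : ℕ) (c : Fin m → ℂ) : Prop :=
  ∀ a : Fin m → ℤ, a ≠ 0 → ∑ j, a j = 0 → ∑ j, |a j| ≤ (M : ℤ) → ∏ j, c j ^ a j ≠ 1

/-- A tame point `t` of the inertia group at a place `v` for a cuspidal representation `τ` of
`GL(m)`: a product of prime numbers `> M` kills `τ(t)`, and the eigenvalues `z j` of `τ(t)` are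
permuted by `γ` under the conjugation `f t f⁻¹ = t ^ q` and are in general position up to
height `M`. -/
def AData.Tame (A : AData) (τ : A.Cusp) (m M : ℕ) (γ : Equiv.Perm (Fin m)) : Prop :=
  ∃ (v : A.Pl) (t f : A.W v) (q N : ℕ) (z : Fin m → ℂ),
    A.ab v t = 1 ∧ f * t * f⁻¹ = t ^ q ∧ 0 < N ∧ (∀ l : ℕ, l.Prime → l ∣ N → M < l) ∧
    (∀ s : ℂˣ, A.eig τ ⟨v, t, s⟩ = Finset.univ.val.map z) ∧
    (∀ j, z j ^ N = 1) ∧ (∀ j, z j ^ q = z (γ j)) ∧ Gen M z

/-- There is a point (an unramified place) where the cuspidal representation `ρ` is not trivial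
and where the eigenvalues of `ρ` are different from all nontrivial monomials of degree `0` and
height at most `M` in the eigenvalues of the cuspidal representation `τ` of `GL(m)`. -/
def AData.Apart (A : AData) (τ : A.Cusp) (m M : ℕ) (ρ : A.Cusp) : Prop :=
  ∃ p, (∃ e ∈ A.eig ρ p, e ≠ 1) ∧ ∀ c : Fin m → ℂ, A.eig τ p = Finset.univ.val.map c →
    ∀ a : Fin m → ℤ, a ≠ 0 → ∑ j, a j = 0 → ∑ j, |a j| ≤ (M : ℤ) → ∀ e ∈ A.eig ρ p,
      ∏ j, c j ^ a j ≠ e

/-- A place where the cuspidal representation `τ` of `GL(m)` is the sum of a twist of the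
Steinberg representation of `GL(2)` (indices `i₀`, `i₁`) and of `m - 2` characters, in general
position up to height `M`. -/
def AData.Stein (A : AData) (τ : A.Cusp) (m M : ℕ) : Prop :=
  ∃ (v : A.Pl) (t : A.W v) (N : ℕ) (z : Fin m → ℂ) (i₀ i₁ : Fin m) (ε : Fin m → ℤ),
    i₀ ≠ i₁ ∧ z i₀ = z i₁ ∧ ε i₀ = 1 ∧ ε i₁ = -1 ∧ (∀ j, j ≠ i₀ → j ≠ i₁ → ε j = 0) ∧
    0 < N ∧ (∀ l : ℕ, l.Prime → l ∣ N → M < l) ∧
    (∀ s : ℂˣ, A.eig τ ⟨v, t, s⟩ = Finset.univ.val.map fun j => z j * (s : ℂ) ^ ε j) ∧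
    (∀ j, z j ^ N = 1) ∧ Gen M (fun j => z j * (2 : ℂ) ^ ε j)

/-- The known facts on automorphic representations of `GL(n)` over a number field. -/
structure Aut extends AData where
  -- Elementary facts on the parameters
  loc_card : ∀ σ v g, ∑ n ∈ Finset.range (deg σ), (n + 1) * (loc σ v n g).card = deg σ
  loc_ne : ∀ σ v n g, (0 : ℂ) ∉ loc σ v n g
  loc_pow : ∀ σ v n g (k : ℤ), loc σ v n (g ^ k) = (loc σ v n g).map fun a => a ^ k
  loc_conj : ∀ σ v n g h, loc σ v n (h * g * h⁻¹) = loc σ v n g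
  /-- The trivial representation of `GL(1)`. -/
  one : Cusp
  deg_one : deg one = 1
  loc_one : ∀ v g, loc one v 0 g = {1}
  /-- The contragredient. -/
  dual : Cusp → Cusp
  deg_dual : ∀ σ, deg (dual σ) = deg σ
  loc_dual : ∀ σ v n g, loc (dual σ) v n g = (loc σ v n g).map fun a => a⁻¹
  /-- The twist of `σ` by the representation `χ` of `GL(1)`. -/
  mul : Cusp → Cusp → Cusp
  deg_mul : ∀ χ σ, deg χ = 1 → deg (mul χ σ) = deg σ
  loc_mul : ∀ χ σ, deg χ = 1 → ∀ v n g,
    loc (mul χ σ) v n g = (loc σ v n g).map fun a => (loc χ v 0 g).sum * a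
  /-- The central character: the determinant of the parameter. -/
  det : Cusp → Cusp
  deg_det : ∀ σ, deg (det σ) = 1
  loc_det : ∀ σ v g, loc (det σ) v 0 g = {(toAData.eig σ ⟨v, g, 1⟩).prod}
  /-- The power of the absolute value. -/
  nrm : ℝ → Cusp
  deg_nrm : ∀ x, deg (nrm x) = 1
  loc_nrm : ∀ x v g, loc (nrm x) v 0 g = {((ab v g ^ x : ℝ) : ℂ)}
  -- Unitarity and the bound of Jacquet and Shalika
  /-- The real number `e` such that the twist of `σ` by `|det| ^ (-e)` is unitary. -/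
  expo : Cusp → ℝ
  herm : ∀ σ v n g, (loc σ v n g).map (starRingEnd ℂ) =
    (loc σ v n g).map fun a => ((ab v g ^ (2 * expo σ) : ℝ) : ℂ) / a
  js : ∀ σ v n, ∀ a ∈ loc σ v n (Fr v),
    ab v (Fr v) ^ (expo σ + 1 / 2) < ‖a‖ ∧ ‖a‖ < ab v (Fr v) ^ (expo σ - 1 / 2)
  /-- Strong multiplicity one for isobaric representations (Jacquet and Shalika). -/
  smo : ∀ P Q : Multiset Cusp, (∀ᶠ v in cofinite,
    toAData.eigs P (toAData.frob v) = toAData.eigs Q (toAData.frob v)) → P = Q
  -- Rankin-Selberg theory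
  summ : ∀ x : ℝ, 1 < x → Summable fun v => ab v (Fr v) ^ x
  /-- The mean of `tr σ_v · conj (tr σ'_v)` with the weights `q_v ^ (-x)`, `x → 1+`. -/
  rs : ∀ σ σ', toAData.Temp σ → toAData.Temp σ' →
    (σ = σ' → Tendsto (fun x : ℝ => (∑' v, ((ab v (Fr v) ^ x : ℝ) : ℂ) *
      (toAData.tr σ (toAData.frob v) * starRingEnd ℂ (toAData.tr σ' (toAData.frob v)))) /
        ((∑' v, ab v (Fr v) ^ x : ℝ) : ℂ)) (𝓝[>] 1) (𝓝 1)) ∧
    (σ ≠ σ' → Tendsto (fun x : ℝ => (∑' v, ((ab v (Fr v) ^ x : ℝ) : ℂ) *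
      (toAData.tr σ (toAData.frob v) * starRingEnd ℂ (toAData.tr σ' (toAData.frob v)))) /
        ((∑' v, ab v (Fr v) ^ x : ℝ) : ℂ)) (𝓝[>] 1) (𝓝 0))
  /-- The order of vanishing at the real number `x` of `L(x, σ × dual σ')`. -/
  ord : Cusp → Cusp → ℝ → ℤ
  ord_add : ∀ I J : Multiset (Cusp × Cusp),
    (∀ p, (I.map fun c => toAData.tr c.1 p * toAData.tr (dual c.2) p).sum =
      (J.map fun c => toAData.tr c.1 p * toAData.tr (dual c.2) p).sum) →
    ∀ x, (I.map fun c => ord c.1 c.2 x).sum = (J.map fun c => ord c.1 c.2 x).sum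
  ord_pole : ∀ σ σ' x, 1 ≤ x + expo σ - expo σ' → σ' = mul (nrm (x - 1)) σ → ord σ σ' x = -1
  ord_zero : ∀ σ σ' x, 1 ≤ x + expo σ - expo σ' → σ' ≠ mul (nrm (x - 1)) σ → ord σ σ' x = 0
  ord_hol : ∀ σ σ', (∀ y, σ' ≠ mul (nrm y) σ) → ∀ x, 0 ≤ ord σ σ' x
  -- An archimedean place
  /-- An archimedean place. -/
  inf : Pl
  /-- The positive real numbers in its Weil group. -/
  u : ℝ → W inf
  u_zero : u 0 = 1
  ab_u : ∀ x, ab inf (u x) = Real.exp x
  /-- The exponents of the parameter of `σ` at this place. -/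
  mu : Cusp → Multiset ℂ
  eig_u : ∀ σ x, toAData.eig σ ⟨inf, u x, 1⟩ = (mu σ).map fun z => Complex.exp (z * x)
  -- Existence of cuspidal representations with prescribed local components
  glob : ∀ (m M : ℕ) (E : Finset Cusp), 2 ≤ m → one ∉ E → ∃ τ, deg τ = m ∧
    (∃ θ : Fin m → ℝ, mu τ = Finset.univ.val.map (fun j => (θ j : ℂ) * Complex.I) ∧
      ∀ a : Fin m → ℤ, a ≠ 0 → ∑ j, a j = 0 → ∑ j, |a j| ≤ (M : ℤ) → ∑ j, θ j * a j ≠ 0) ∧
    (∃ γ, (∀ i j, ∃ n : ℕ, (γ ^ n) i = j) ∧ toAData.Tame τ m M γ) ∧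
    (∃ γ k, γ k = k ∧ (∀ i j, i ≠ k → j ≠ k → ∃ n : ℕ, (γ ^ n) i = j) ∧
      toAData.Tame τ m M γ) ∧
    toAData.Stein τ m M ∧ ∀ ρ ∈ E, toAData.Apart τ m M ρ

/-- The `k`-th symmetric power of every isobaric representation is automorphic: there is an
isobaric representation whose parameter at every place is the symmetric power of the given one
(semisimple representations of `W_v × SL(2, ℂ)` are determined by their traces at the points). -/
def Aut.HasSym (A : Aut) (k : ℕ) : Prop :=
  ∀ P : Multiset A.Cusp, ∃ Q : Multiset A.Cusp, ∀ p, (A.eigs Q p).sum = hs k (A.eigs P p)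

/-- The `k`-th exterior power of every isobaric representation is automorphic. -/
def Aut.HasExt (A : Aut) (k : ℕ) : Prop :=
  ∀ P : Multiset A.Cusp, ∃ Q : Multiset A.Cusp, ∀ p, (A.eigs Q p).sum = (A.eigs P p).esymm k

end

end Pool.H66.S2
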