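import Pool.Agent.H66.S2.Defs

/-!
# Symmetric or exterior powers and functoriality for products of GL(N): module statements

See the plan T5B_PLAN.md.  Every module `XXX` is the proposition `S_XXX`.
-/

namespace Pool.H66.S2

open Filter Topology

noncomputable section

/-! ## Notation -/

/-- Monomials with integer exponents. -/
def mon {m : ℕ} (c : Fin m → ℂ) (a : Fin m → ℤ) : ℂ := ∏ j, c j ^ a j

/-- The weights of degree `d` and height at most `H`. -/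
def Wt (m : ℕ) (d : ℤ) (H : ℕ) : Set (Fin m → ℤ) := {a | ∑ j, a j = d ∧ ∑ j, |a j| ≤ (H : ℤ)}

/-- The value at `c` of an integer combination of monomials. -/
def ev {m : ℕ} (φ : (Fin m → ℤ) →₀ ℤ) (c : Fin m → ℂ) : ℂ := φ.sum fun a n => (n : ℂ) * mon c a

/-- The unit vectors. -/
def ee {m : ℕ} (i : Fin m) : Fin m → ℤ := Pi.single i 1

/-- The positive real number `exp y` as an element of `ℂˣ`. -/
def eu (y : ℝ) : ℂˣ := Units.mk0 (Complex.exp y) (Complex.exp_ne_zero _)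

/-- The partitions of `k` with at most `m` parts. -/
def Par (m k : ℕ) : Set (Fin m → ℕ) := {lam | Antitone lam ∧ ∑ j, lam j = k}

/-- `c` is an ordering of the eigenvalues of `τ` at `p`. -/
def AData.Ord (A : AData) (τ : A.Cusp) {m : ℕ} (p : A.Pt) (c : Fin m → ℂ) : Prop :=
  A.eig τ p = Finset.univ.val.map c

/-- The cuspidal representations of dimension at most `m ^ H` all of whose eigenvalues, at all
points, are monomials of degree `d` and height at most `H` in the eigenvalues of `τ`. -/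
def AData.Irr (A : AData) (τ : A.Cusp) (m : ℕ) (d : ℤ) (H : ℕ) : Set A.Cusp :=
  {z | A.deg z ≤ m ^ H ∧ ∀ (p : A.Pt) (c : Fin m → ℂ), A.Ord τ p c → ∀ e ∈ A.eig z p,
    ∃ a ∈ Wt m d H, e = mon c a}

/-- The virtual representations with constituents in `Irr d H`, as functions on the points. -/
def AData.RH (A : AData) (τ : A.Cusp) (m : ℕ) (d : ℤ) (H : ℕ) : AddSubgroup (A.Pt → ℂ) :=
  AddSubgroup.closure (A.tr '' A.Irr τ m d H)

/-- All virtual representations with constituents in the union of the sets `Irr d H`. -/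
def AData.RR (A : AData) (τ : A.Cusp) (m : ℕ) : AddSubgroup (A.Pt → ℂ) :=
  AddSubgroup.closure (A.tr '' {z | ∃ d H, z ∈ A.Irr τ m d H})

/-- All virtual representations. -/
def AData.VV (A : AData) : AddSubgroup (A.Pt → ℂ) := AddSubgroup.closure (Set.range A.tr)

/-- The `k`-th symmetric power or the `k`-th exterior power is functorial. -/
def Aut.HasSE (A : Aut) (k : ℕ) : Prop := A.HasSym k ∨ A.HasExt k

/-- The Schur functors of degree `k` are functorial. -/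
def Aut.HasDeg (A : Aut) (k : ℕ) : Prop :=
  ∀ (r : ℕ) (lam : Fin r → ℕ), Antitone lam → ∑ j, lam j = k → ∀ P : Multiset A.Cusp,
    ∃ Q : Multiset A.Cusp, ∀ p, (A.eigs Q p).sum = schur lam (A.eigs P p)

/-! ## A. Symmetric functions (pure algebra) -/

/-- Elementary properties of `hs`. -/
def S_HSB : Prop :=
  (∀ X, hs 0 X = 1) ∧ (∀ k, hs (k + 1) 0 = 0) ∧ (∀ X, hs 1 X = X.sum) ∧
  (∀ k a X, hs (k + 1) (a ::ₘ X) = hs (k + 1) X + a * hs k (a ::ₘ X)) ∧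
  (∀ k X Y, hs k (X + Y) = ∑ i ∈ Finset.range (k + 1), hs i X * hs (k - i) Y)

/-- Newton's identities: power sums are integer polynomials in the `hs k`, isobaric of weight
`n`. -/
def S_PNH : Prop :=
  ∀ n : ℕ, 1 ≤ n → ∃ φ : List ℕ →₀ ℤ, (∀ l ∈ φ.support, l.sum = n) ∧
    ∀ X : Multiset ℂ, (X.map fun a => a ^ n).sum =
      φ.sum fun l c => (c : ℂ) * (l.map fun k => hs k X).prod

/-- The eigenvalues of a symmetric power. -/
def S_SYM : Prop :=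
  ∀ (k : ℕ) (X : Multiset ℂ), (0 : ℂ) ∉ X → ∃ Y : Multiset ℂ, Y.card ≤ X.card ^ k ∧
    (∀ n : ℤ, (Y.map fun a => a ^ n).sum = hs k (X.map fun a => a ^ n)) ∧
    ∀ e ∈ Y, ∃ Z : Multiset ℂ, Z.card = k ∧ (∀ z ∈ Z, z ∈ X) ∧ e = Z.prod

/-- The fundamental theorem on symmetric polynomials, for the complete symmetric functions. -/
def S_FTS : Prop :=
  ∀ (m D : ℕ) (φ : (Fin m → ℤ) →₀ ℤ), (∀ a ∈ φ.support, (∀ j, 0 ≤ a j) ∧ ∑ j, a j = D) →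
    (∀ (σ : Equiv.Perm (Fin m)) (a : Fin m → ℤ), φ (a ∘ σ) = φ a) →
    ∃ ψ : List ℕ →₀ ℤ, (∀ l ∈ ψ.support, l.sum = D) ∧ ∀ c : Fin m → ℂ,
      ev φ c = ψ.sum fun l n => (n : ℂ) * (l.map fun k => hs k (Finset.univ.val.map c)).prod

/-- Linear independence of the sequences `e ^ n`, `n ≥ 1`. -/
def S_VAN : Prop :=
  ∀ φ : ℂ →₀ ℂ, (∀ e ∈ φ.support, e ≠ 0) → (∀ n : ℕ, 1 ≤ n → (φ.sum fun e k => k * e ^ n) = 0) →
    φ = 0

/-- Multisets of at most `D` complex numbers with the same first `D` power sums. -/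
def S_PSU : Prop :=
  ∀ (D : ℕ) (X Y : Multiset ℂ), X.card = D → Y.card = D →
    (∀ n : ℕ, 1 ≤ n → n ≤ D → (X.map fun a => a ^ n).sum = (Y.map fun a => a ^ n).sum) → X = Y

/-- The bialternant formula (Jacobi-Trudi identity). -/
def S_JTB : Prop :=
  ∀ (m : ℕ) (c : Fin m → ℂ) (lam : Fin m → ℕ),
    (Matrix.of fun i j : Fin m => c i ^ (lam j + (m - 1 - (j : ℕ)))).det =
      schur lam (Finset.univ.val.map c) *
        (Matrix.of fun i j : Fin m => c i ^ (m - 1 - (j : ℕ))).det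

/-- Cauchy's identity. -/
def S_CAU : Prop :=
  ∀ (k m : ℕ) (X : Multiset ℂ) (c : Fin m → ℂ),
    hs k (X.bind fun a => Finset.univ.val.map fun j => a * c j) =
      ∑ᶠ lam ∈ Par m k, schur lam X * schur lam (Finset.univ.val.map c)

/-- A full column is the determinant. -/
def S_COL : Prop :=
  ∀ (m : ℕ) (c : Fin m → ℂ) (lam : Fin m → ℕ),
    schur (fun j => lam j + 1) (Finset.univ.val.map c) =
      (∏ j, c j) * schur lam (Finset.univ.val.map c)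

/-- An empty row may be omitted. -/
def S_ZRO : Prop :=
  ∀ (r : ℕ) (lam : Fin r → ℕ) (X : Multiset ℂ),
    schur (Fin.snoc (α := fun _ => ℕ) lam 0 : Fin (r + 1) → ℕ) X = schur lam X

/-- Pieri's rule for one box. -/
def S_PIE : Prop :=
  ∀ (m : ℕ) (c : Fin m → ℂ) (mu : Fin m → ℕ), Antitone mu →
    (∑ j, c j) * schur mu (Finset.univ.val.map c) =
      ∑ᶠ i ∈ {i : Fin m | Antitone (mu + Pi.single i 1)},
        schur (mu + Pi.single i 1) (Finset.univ.val.map c)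

/-- The weights of a Schur function: homogeneity, symmetry, and the multiplicities of the highest
weight and of the weights obtained by moving the last box. -/
def S_KOS : Prop :=
  ∀ (m : ℕ) (nu : Fin m → ℕ), Antitone nu → ∃ K : (Fin m → ℤ) →₀ ℤ,
    (∀ c : Fin m → ℂ, schur nu (Finset.univ.val.map c) = ev K c) ∧
    (∀ a ∈ K.support, (∀ j, 0 ≤ a j) ∧ ∑ j, a j = ∑ j, (nu j : ℤ)) ∧
    (∀ (σ : Equiv.Perm (Fin m)) (a : Fin m → ℤ), K (a ∘ σ) = K a) ∧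
    K (fun j => (nu j : ℤ)) = 1 ∧
    (∀ a ∈ K.support, (a = fun j => (nu j : ℤ)) ∨
      ∃ i, (∀ j, j < i → a j = nu j) ∧ a i < nu i) ∧
    ∀ r : Fin m, 0 < nu r → (∀ j, r < j → nu j = 0) →
      (∀ i, i < r → K ((fun j => (nu j : ℤ)) - ee r + ee i) = 0) ∧
      (∀ i, r < i → K ((fun j => (nu j : ℤ)) - ee r + ee i) = 1)

/-- A bound for the dimension of `S_nu`. -/
def S_DIM : Prop :=
  ∀ (m : ℕ) (nu : Fin m → ℕ), 2 ≤ m → Antitone nu →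
    ‖schur nu (Finset.univ.val.map fun _ : Fin m => (1 : ℂ))‖ ≤ (m : ℝ) ^ (∑ j, nu j + m)

/-- Products of Schur functions are integer combinations of Schur functions (with `m`
variables and with duals). -/
def S_SPN : Prop :=
  ∀ (m k : ℕ) (lam mu : Fin m → ℕ), lam ∈ Par m k → mu ∈ Par m k →
    ∃ ψ : (Fin m → ℕ) →₀ ℤ, (∀ nu ∈ ψ.support, nu ∈ Par m (m * k)) ∧
      ∀ c : Fin m → ℂ, (∀ j, c j ≠ 0) →
        schur lam (Finset.univ.val.map c) * schur mu (Finset.univ.val.map fun j => (c j)⁻¹) =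
          ψ.sum fun nu n => (n : ℂ) * (schur nu (Finset.univ.val.map c) *
            (∏ j, c j) ^ (-(k : ℤ)))

/-- Generation of the symmetric group. -/
def S_GRP : Prop :=
  ∀ (m : ℕ) (G : Subgroup (Equiv.Perm (Fin m))) (γ δ : Equiv.Perm (Fin m)) (k i₀ i₁ : Fin m),
    γ ∈ G → (∀ i j, ∃ n : ℕ, (γ ^ n) i = j) → δ ∈ G → δ k = k →
    (∀ i j, i ≠ k → j ≠ k → ∃ n : ℕ, (δ ^ n) i = j) → i₀ ≠ i₁ → Equiv.swap i₀ i₁ ∈ G → G = ⊤

/-- Pigeonhole principle for polynomials. -/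
def S_PIG : Prop :=
  ∀ (ι : Type) (s : Set ι), s.Finite → ∀ (J : ℕ) (x : ι → ℕ → ℂ),
    (∀ u : ℕ, ∃ i ∈ s, ∑ j ∈ Finset.Icc 1 J, (u : ℂ) ^ j * x i j = 0) →
    ∃ i ∈ s, ∀ j, 1 ≤ j → j ≤ J → x i j = 0

/-- The relation between elementary and complete symmetric functions. -/
def S_EHR : Prop :=
  ∀ (k : ℕ) (X : Multiset ℂ), 1 ≤ k →
    ∑ i ∈ Finset.range (k + 1), (-1 : ℂ) ^ i * X.esymm i * hs (k - i) X = 0

/-- The eigenvalues of an exterior power. -/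
def S_EXM : Prop :=
  ∀ (k : ℕ) (X : Multiset ℂ), (0 : ℂ) ∉ X → ∃ Y : Multiset ℂ, Y.card ≤ X.card ^ k ∧
    (∀ n : ℤ, (Y.map fun a => a ^ n).sum = (X.map fun a => a ^ n).esymm k) ∧
    ∀ e ∈ Y, ∃ Z : Multiset ℂ, Z.card = k ∧ (∀ z ∈ Z, z ∈ X) ∧ e = Z.prod

/-- The dual Jacobi-Trudi determinant of a column. -/
def S_JTE : Prop :=
  ∀ (k : ℕ) (X : Multiset ℂ), JT (fun j => X.esymm j) (fun _ : Fin k => 1) = hs k X

/-- The dual Cauchy identity. -/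
def S_DCA : Prop :=
  ∀ (k m : ℕ) (X : Multiset ℂ) (c : Fin m → ℂ),
    (X.bind fun a => Finset.univ.val.map fun j => a * c j).esymm k =
      ∑ᶠ nu ∈ Par m k, JT (fun j => X.esymm j) nu * schur nu (Finset.univ.val.map c)

/-- The empty rows may be omitted. -/
def S_ROW : Prop :=
  ∀ (r : ℕ) (lam : Fin r → ℕ), Antitone lam → ∃ (m : ℕ) (nu : Fin m → ℕ), Antitone nu ∧
    (∀ j, 1 ≤ nu j) ∧ ∑ j, nu j = ∑ j, lam j ∧ ∀ X : Multiset ℂ, schur lam X = schur nu X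

/-- An integer combination of monomials is determined by its values. -/
def S_EVI : Prop :=
  ∀ (m : ℕ) (φ : (Fin m → ℤ) →₀ ℤ), (∀ c : Fin m → ℂ, (∀ j, c j ≠ 0) → ev φ c = 0) → φ = 0

/-- Weyl's integration formula: the functional `w φ = CT (φ · a_δ(x) · a_δ(1/x))`. -/
def S_WIP : Prop :=
  ∀ m : ℕ, ∃ w : ((Fin m → ℤ) →₀ ℤ) →+ ℤ, ∀ nu mu : Fin m → ℕ, Antitone nu → Antitone mu →
    ∀ φ : (Fin m → ℤ) →₀ ℤ, (∀ c : Fin m → ℂ, (∀ j, c j ≠ 0) →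
      ev φ c = schur nu (Finset.univ.val.map c) * schur mu (Finset.univ.val.map fun j => (c j)⁻¹)) →
      (nu = mu → w φ = (m.factorial : ℤ)) ∧ (nu ≠ mu → w φ = 0)

/-- Every Schur function of positive degree `k` (in `m` variables) is an integer combination of
products `e_a s_mu`, `1 ≤ a ≤ m`, `mu` a partition of `k - a`. -/
def S_FTE : Prop :=
  ∀ (m k : ℕ) (nu : Fin m → ℕ), 1 ≤ k → nu ∈ Par m k → ∃ ψ : (ℕ × (Fin m → ℕ)) →₀ ℤ,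
    (∀ x ∈ ψ.support, 1 ≤ x.1 ∧ x.1 ≤ m ∧ x.1 ≤ k ∧ x.2 ∈ Par m (k - x.1)) ∧
    ∀ c : Fin m → ℂ, schur nu (Finset.univ.val.map c) = ψ.sum fun x n => (n : ℂ) *
      ((Finset.univ.val.map c).esymm x.1 * schur x.2 (Finset.univ.val.map c))

/-- `e_a s_kappa` is an integer combination of Schur functions. -/
def S_EPI : Prop :=
  ∀ (m a d : ℕ) (kappa : Fin m → ℕ), kappa ∈ Par m d → ∃ ψ : (Fin m → ℕ) →₀ ℤ,
    (∀ mu ∈ ψ.support, mu ∈ Par m (d + a)) ∧ ∀ c : Fin m → ℂ,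
      (Finset.univ.val.map c).esymm a * schur kappa (Finset.univ.val.map c) =
        ψ.sum fun mu n => (n : ℂ) * schur mu (Finset.univ.val.map c)

/-- Different Schur functions have different weights: their values at the powers of a point in
general position are different. -/
def S_SND : Prop :=
  ∀ (m k : ℕ) (c : Fin m → ℂ), (∀ j, c j ≠ 0) → Gen (2 * k) c → ∀ nu ∈ Par m k,
    ∀ mu ∈ Par m k, (∀ n : ℕ, 1 ≤ n → schur nu (Finset.univ.val.map fun j => c j ^ n) =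
      schur mu (Finset.univ.val.map fun j => c j ^ n)) → nu = mu

/-! ## B. Basic facts on `Aut` -/

/-- Eigenvalues. -/
def S_BAS : Prop :=
  ∀ A : Aut,
    (∀ σ p, (A.eig σ p).card = A.deg σ) ∧
    (∀ σ p, (0 : ℂ) ∉ A.eig σ p) ∧
    (∀ σ p (k : ℤ), A.eig σ (p.pow k) = (A.eig σ p).map fun a => a ^ k) ∧
    (∀ p, A.eig A.one p = {1}) ∧
    (∀ σ p, A.eig (A.dual σ) p = (A.eig σ p).map fun a => a⁻¹) ∧
    (∀ χ σ p, A.deg χ = 1 → A.eig (A.mul χ σ) p = (A.eig σ p).map fun a => A.tr χ p * a) ∧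
    (∀ σ p, A.eig (A.det σ) p = {(A.eig σ p).prod}) ∧
    (∀ x p, A.eig (A.nrm x) p = {((A.ab p.v p.g ^ x : ℝ) : ℂ)}) ∧
    (∀ σ v g, (A.eig σ ⟨v, g, 1⟩).map (starRingEnd ℂ) =
      (A.eig σ ⟨v, g, 1⟩).map fun a => ((A.ab v g ^ (2 * A.expo σ) : ℝ) : ℂ) / a) ∧
    (∀ σ v g h s, A.eig σ ⟨v, h * g * h⁻¹, s⟩ = A.eig σ ⟨v, g, s⟩) ∧
    (∀ σ v g s, A.eig σ ⟨v, g, s⁻¹⟩ = A.eig σ ⟨v, g, s⟩) ∧
    (∀ σ v, ∀ a ∈ A.eig σ (A.frob v), A.ab v (A.Fr v) ^ (A.expo σ + 1 / 2) < ‖a‖ ∧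
      ‖a‖ < A.ab v (A.Fr v) ^ (A.expo σ - 1 / 2))

/-- Exponents. -/
def S_EXP : Prop :=
  ∀ A : Aut, A.expo A.one = 0 ∧ (∀ σ, A.expo (A.dual σ) = -A.expo σ) ∧
    (∀ y σ, A.expo (A.mul (A.nrm y) σ) = A.expo σ + y) ∧
    (∀ σ v g, ‖(A.eig σ ⟨v, g, 1⟩).prod‖ = A.ab v g ^ (A.expo σ * A.deg σ))

/-- Isobaric representations with the same traces are equal; linear independence of traces. -/
def S_IND : Prop :=
  ∀ A : Aut, (∀ P Q : Multiset A.Cusp, (∀ v, ∀ n : ℕ, 1 ≤ n →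
      (A.eigs P ((A.frob v).pow n)).sum = (A.eigs Q ((A.frob v).pow n)).sum) → P = Q) ∧
    ∀ k : A.Cusp →₀ ℤ, (∀ v, ∀ n : ℕ, 1 ≤ n →
      (k.sum fun z n' => (n' : ℂ) * A.tr z ((A.frob v).pow n)) = 0) → k = 0

/-- Tensor products. -/
def S_TEN : Prop :=
  ∀ A : Aut, A.HasSE 2 → ∀ P Q : Multiset A.Cusp, ∃ T : Multiset A.Cusp,
    ∀ p, (A.eigs T p).sum = (A.eigs P p).sum * (A.eigs Q p).sum

/-- Virtual representations form a ring which contains the Schur functors. -/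
def S_VIR : Prop :=
  ∀ A : Aut, (∀ k, A.HasSE k) →
    (∀ F ∈ A.VV, ∀ G ∈ A.VV, F * G ∈ A.VV) ∧
    ∀ (r : ℕ) (lam : Fin r → ℕ) (P : Multiset A.Cusp),
      (fun p => schur lam (A.eigs P p)) ∈ A.VV ∧
      (fun p => JT (fun j => (A.eigs P p).esymm j) lam) ∈ A.VV

/-- Products in the graded ring of virtual representations. -/
def S_RMU : Prop :=
  ∀ (A : Aut) (τ : A.Cusp) (m : ℕ), A.HasSE 2 → 2 ≤ m → A.deg τ = m →
    (∀ d d' H H', ∀ z ∈ A.Irr τ m d H, ∀ z' ∈ A.Irr τ m d' H', ∀ T : Multiset A.Cusp,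
      (∀ p, (A.eigs T p).sum = A.tr z p * A.tr z' p) → ∀ w ∈ T,
      w ∈ A.Irr τ m (d + d') (H + H')) ∧
    (∀ d H H', H ≤ H' → A.Irr τ m d H ⊆ A.Irr τ m d H') ∧
    (∀ d d' H H', ∀ F ∈ A.RH τ m d H, ∀ G ∈ A.RH τ m d' H', F * G ∈ A.RH τ m (d + d') (H + H')) ∧
    (∀ F ∈ A.RR τ m, ∀ G ∈ A.RR τ m, F * G ∈ A.RR τ m) ∧
    (∀ d H, A.RH τ m d H ≤ A.RR τ m) ∧ (∀ d H H', H ≤ H' → A.RH τ m d H ≤ A.RH τ m d H')

/-- The trivial representation, `τ` and the inverse of its determinant; duals. -/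
def S_RTA : Prop :=
  ∀ (A : Aut) (τ : A.Cusp) (m : ℕ), 2 ≤ m → A.deg τ = m →
    A.one ∈ A.Irr τ m 0 0 ∧ τ ∈ A.Irr τ m 1 1 ∧
    (∀ d H z, z ∈ A.Irr τ m d H → A.dual z ∈ A.Irr τ m (-d) H) ∧
    (∀ d H, ∀ F ∈ A.RH τ m d H, (fun p => F (p.pow (-1))) ∈ A.RH τ m (-d) H) ∧
    (∃ δ ∈ A.Irr τ m m m, ∀ p, A.tr δ p = (A.eig τ p).prod) ∧
    (∃ δ ∈ A.Irr τ m (-m) m, ∀ p, A.tr δ p = (A.eig τ p).prod⁻¹)

/-- Constituents of isobaric representations whose traces are integer combinations of monomials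
in the eigenvalues of `τ`. -/
def S_CON : Prop :=
  ∀ (A : Aut) (τ : A.Cusp) (m : ℕ) (d : ℤ) (H : ℕ) (Q : Multiset A.Cusp)
    (φ : (Fin m → ℤ) →₀ ℤ), (∀ a ∈ φ.support, a ∈ Wt m d H) → (∀ z ∈ Q, A.deg z ≤ m ^ H) →
    (∀ p c, A.Ord τ p c → (A.eigs Q p).sum = ev φ c) → ∀ z ∈ Q, z ∈ A.Irr τ m d H

/-- Symmetric powers and Adams operations in the ring of virtual representations. -/
def S_RPS : Prop :=
  ∀ (A : Aut) (τ : A.Cusp) (m : ℕ), (∀ k, A.HasSE k) → 2 ≤ m → A.deg τ = m →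
    (∀ d H z, z ∈ A.Irr τ m d H → ∀ k : ℕ,
      (fun p => hs k (A.eig z p)) ∈ A.RH τ m (k * d) (k * H)) ∧
    (∀ d H, ∀ F ∈ A.RH τ m d H, ∀ n : ℕ, 1 ≤ n →
      (fun p => F (p.pow n)) ∈ A.RH τ m (n * d) (n * H)) ∧
    (∀ F ∈ A.RR τ m, ∀ n : ℕ, 1 ≤ n → (fun p => F (p.pow n)) ∈ A.RR τ m)

/-- Symmetric Laurent polynomials in the eigenvalues of `τ`. -/
def S_RSY : Prop :=
  ∀ (A : Aut) (τ : A.Cusp) (m : ℕ), (∀ k, A.HasSE k) → 2 ≤ m → A.deg τ = m →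
    ∀ (d : ℤ) (H : ℕ) (φ : (Fin m → ℤ) →₀ ℤ), (∀ a ∈ φ.support, a ∈ Wt m d H) →
      (∀ (σ : Equiv.Perm (Fin m)) (a : Fin m → ℤ), φ (a ∘ σ) = φ a) →
      ∃ F ∈ A.RH τ m d ((2 * m + 1) * H), ∀ p c, A.Ord τ p c → F p = ev φ c

/-- Symmetric products `∏ (Y - φ_i(c))`. -/
def S_SPR : Prop :=
  ∀ (A : Aut) (τ : A.Cusp) (m : ℕ), (∀ k, A.HasSE k) → 2 ≤ m → A.deg τ = m →
    ∀ (d : ℤ) (H : ℕ), ∀ Y ∈ A.RH τ m d H, ∀ (ι : Type) [Fintype ι]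
      (φ : ι → (Fin m → ℤ) →₀ ℤ) (π : Equiv.Perm (Fin m) → Equiv.Perm ι),
      (∀ i, ∀ a ∈ (φ i).support, a ∈ Wt m d H) →
      (∀ (σ : Equiv.Perm (Fin m)) (i : ι) (a : Fin m → ℤ), φ (π σ i) a = φ i (a ∘ σ)) →
      ∃ X ∈ A.RH τ m (Fintype.card ι * d) (Fintype.card ι * ((2 * m + 1) * H)),
        ∀ p c, A.Ord τ p c → X p = ∏ i, (Y p - ev (φ i) c)

/-- The archimedean parameter of `τ` is tempered and in general position up to height `M`. -/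
def Aut.Arch (A : Aut) (τ : A.Cusp) (m M : ℕ) : Prop :=
  ∃ θ : Fin m → ℝ, A.mu τ = Finset.univ.val.map (fun j => (θ j : ℂ) * Complex.I) ∧
    ∀ a : Fin m → ℤ, a ≠ 0 → ∑ j, a j = 0 → ∑ j, |a j| ≤ (M : ℤ) → ∑ j, θ j * a j ≠ 0

/-- The standing assumptions. -/
structure Ctx (A : Aut) (τ : A.Cusp) (m M : ℕ) : Prop where
  hm : 2 ≤ m
  deg : A.deg τ = m
  sym : ∀ k, A.HasSE k
  arch : A.Arch τ m M

/-- Temperedness. -/
def S_TMP : Prop :=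
  ∀ (A : Aut) (τ : A.Cusp) (m M : ℕ), Ctx A τ m M → ∀ d H, ∀ z ∈ A.Irr τ m d H,
    A.expo z = 0 ∧ A.Temp z

/-! ## C. Analysis -/

/-- Bounded functions. -/
def Bd {V : Type} (f : V → ℂ) : Prop := ∃ C : ℝ, ∀ v, ‖f v‖ ≤ C

/-- Complex conjugation of functions. -/
def cj {V : Type} (f : V → ℂ) : V → ℂ := fun v => starRingEnd ℂ (f v)

/-- A mean on the bounded functions on a set. -/
structure Mean (V : Type) where
  /-- the mean -/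
  m : (V → ℂ) → ℂ
  one : m 1 = 1
  add : ∀ f g, Bd f → Bd g → m (f + g) = m f + m g
  smul : ∀ (a : ℂ) f, Bd f → m (fun v => a * f v) = a * m f
  conj : ∀ f, Bd f → m (cj f) = starRingEnd ℂ (m f)
  nonneg : ∀ f, Bd f → (∀ v, ∃ r : ℝ, 0 ≤ r ∧ f v = r) → ∃ r : ℝ, 0 ≤ r ∧ m f = r

/-- The function `v ↦ tr z (Fr_v)`. -/
def AData.fr (A : AData) (z : A.Cusp) : A.Pl → ℂ := fun v => A.tr z (A.frob v)

/-- The mean of Rankin-Selberg theory. -/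
def S_MEA : Prop :=
  ∀ A : Aut, ∃ μ : Mean A.Pl, ∀ σ σ', A.Temp σ → A.Temp σ' →
    (σ = σ' → μ.m (A.fr σ * cj (A.fr σ')) = 1) ∧ (σ ≠ σ' → μ.m (A.fr σ * cj (A.fr σ')) = 0)

/-- An idempotent ultrafilter. -/
def Idem (p : Ultrafilter ℕ) : Prop :=
  (∀ N : ℕ, Set.Ici N ∈ p) ∧ ∀ S : Set ℕ, S ∈ p ↔ {n | {k | n + k ∈ S} ∈ p} ∈ p

/-- Hindman's theorem in the form of Galvin and Glazer (Mathlib: `Hindman`). -/
def S_AN0 : Prop := ∃ p : Ultrafilter ℕ, Idem p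

/-- The Hilbert space of a mean, with the multiplication operators. -/
structure Rep {V : Type} (μ : Mean V) where
  /-- the Hilbert space -/
  H : Type
  [i1 : NormedAddCommGroup H]
  [i2 : InnerProductSpace ℂ H]
  [i3 : CompleteSpace H]
  /-- multiplication operators -/
  T : (V → ℂ) → (H →L[ℂ] H)
  /-- the constant function 1 -/
  e : H
  T_one : T 1 = 1
  T_add : ∀ f g, Bd f → Bd g → T (f + g) = T f + T g
  T_mul : ∀ f g, Bd f → Bd g → T (f * g) = T f * T g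
  T_smul : ∀ (a : ℂ) f, Bd f → T (fun v => a * f v) = a • T f
  T_adj : ∀ f, Bd f → ∀ x y : H, inner ℂ (T f x) y = inner ℂ x (T (cj f) y)
  inner_e : ∀ f g, Bd f → Bd g → inner ℂ (T f e) (T g e) = μ.m (cj f * g)
  dense : Dense {x : H | ∃ f, Bd f ∧ x = T f e}

attribute [instance] Rep.i1 Rep.i2 Rep.i3

/-- Existence of the Hilbert space. -/
def S_AN1 : Prop := ∀ (V : Type) (μ : Mean V), Nonempty (Rep μ)

/-- `u` has absolute value 1. -/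
def Uni {V : Type} (u : V → ℂ) : Prop := ∀ v, ‖u v‖ = 1

/-- The limits of the powers of multiplication operators along `p`. -/
structure Lms {V : Type} {μ : Mean V} (R : Rep μ) (p : Ultrafilter ℕ) where
  /-- the limit of the powers -/
  E : (V → ℂ) → (R.H →L[ℂ] R.H)
  tends : ∀ u, Uni u → ∀ x y : R.H,
    Tendsto (fun n : ℕ => inner ℂ x (R.T (fun v => u v ^ n) y)) p (𝓝 (inner ℂ x (E u y)))
  comm : ∀ u, Uni u → ∀ f, Bd f → R.T f * E u = E u * R.T f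
  comm' : ∀ u w, Uni u → Uni w → E u * E w = E w * E u
  idem : ∀ u, Uni u → E u * E u = E u
  adj : ∀ u, Uni u → ∀ x y : R.H, inner ℂ (E u x) y = inner ℂ x (E u y)
  one : E 1 = 1

/-- Existence of the limits. -/
def S_AN2 : Prop :=
  ∀ (V : Type) (μ : Mean V) (R : Rep μ) (p : Ultrafilter ℕ), Idem p → Nonempty (Lms R p)

/-- Orthonormal families with integer combinations; the trivial element. -/
structure Basis' {V : Type} (μ : Mean V) (X : Type) where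
  /-- the family -/
  b : X → V → ℂ
  /-- the index of the constant function 1 -/
  x0 : X
  bd : ∀ x, Bd (b x)
  b0 : b x0 = 1
  norm : ∀ x, μ.m (b x * cj (b x)) = 1
  orth : ∀ x y, x ≠ y → μ.m (b x * cj (b y)) = 0

/-- Integer combinations of the basis. -/
def Basis'.co {V : Type} {μ : Mean V} {X : Type} (B : Basis' μ X) (k : X →₀ ℤ) : V → ℂ :=
  fun v => k.sum fun x n => (n : ℂ) * B.b x v

/-- Limits of integral elements are integral. -/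
def S_AN3 : Prop :=
  ∀ (V : Type) (μ : Mean V) (R : Rep μ) (p : Ultrafilter ℕ), Idem p → ∀ (L : Lms R p)
    (X : Type) (B : Basis' μ X) (ι : Type) [Fintype ι] (f u : ι → V → ℂ),
    (∀ j, Bd (f j)) → (∀ j, Uni (u j)) → ∀ k : ℕ → X →₀ ℤ,
    (∀ᶠ n in p, ∀ v, ∑ j, f j v * u j v ^ n = B.co (k n) v) →
    ∃ k' : X →₀ ℤ, ∑ j, R.T (f j) * L.E (u j) = R.T (B.co k')

/-- Periodicity. -/
def S_AN4 : Prop :=
  ∀ (V : Type) (μ : Mean V) (R : Rep μ) (p : Ultrafilter ℕ), Idem p → ∀ (L : Lms R p)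
    (X : Type) (B : Basis' μ X) (ι : Type) [Fintype ι] (u : ι → V → ℂ),
    (∀ j, Uni (u j)) → ∀ k : ℕ → X →₀ ℤ,
    (∀ n : ℕ, 1 ≤ n → ∀ v, ∑ j, u j v ^ n = B.co (k n) v) →
    ∃ q : ℕ, 1 ≤ q ∧ ∀ j, L.E (u j) * (R.T (fun v => u j v ^ q) - 1) = 0

/-- The output of the analysis for a mean: a commutative ring. -/
structure Out {V : Type} (μ : Mean V) {X : Type} (B : Basis' μ X) where
  /-- the ring -/
  Q : Type
  [ring : CommRing Q]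
  /-- the class of a bounded function -/
  M : (V → ℂ) → Q
  /-- the projections -/
  E : (V → ℂ) → Q
  M_one : M 1 = 1
  M_add : ∀ f g, Bd f → Bd g → M (f + g) = M f + M g
  M_mul : ∀ f g, Bd f → Bd g → M (f * g) = M f * M g
  M_zero : ∀ f, Bd f → M f = 0 → μ.m (f * cj f) = 0
  E_one : E 1 = 1
  E_idem : ∀ u, Uni u → E u * E u = E u
  lim : ∀ (ι : Type) [Fintype ι] (f u : ι → V → ℂ), (∀ j, Bd (f j)) → (∀ j, Uni (u j)) →
    ∀ k : ℕ → X →₀ ℤ, (∀ n : ℕ, 1 ≤ n → ∀ v, ∑ j, f j v * u j v ^ n = B.co (k n) v) →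
    ∃ k' : X →₀ ℤ, ∑ j, M (f j) * E (u j) = M (B.co k')
  per : ∀ (ι : Type) [Fintype ι] (u : ι → V → ℂ), (∀ j, Uni (u j)) → ∀ k : ℕ → X →₀ ℤ,
    (∀ n : ℕ, 1 ≤ n → ∀ v, ∑ j, u j v ^ n = B.co (k n) v) →
    ∃ q : ℕ, 1 ≤ q ∧ ∀ j, E (u j) * (M (fun v => u j v ^ q) - 1) = 0

attribute [instance] Out.ring

/-- The analysis. -/
def S_ANA : Prop :=
  ∀ (V : Type) (μ : Mean V) (X : Type) (B : Basis' μ X), Nonempty (Out μ B)

/-- The output of the analysis for `τ`. -/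
structure Lim (A : Aut) (τ : A.Cusp) (m : ℕ) where
  /-- the ring -/
  Q : Type
  [ring : CommRing Q]
  /-- an ordering of the eigenvalues of `τ` at the Frobenius elements -/
  c : A.Pl → Fin m → ℂ
  c_ord : ∀ v, A.Ord τ (A.frob v) (c v)
  c_norm : ∀ v j, ‖c v j‖ = 1
  /-- the class of a bounded function -/
  M : (A.Pl → ℂ) → Q
  /-- the projections -/
  E : (Fin m → ℤ) → Q
  bd : ∀ F ∈ A.RR τ m, Bd fun v => F (A.frob v)
  M_one : M 1 = 1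
  M_add : ∀ f g, Bd f → Bd g → M (f + g) = M f + M g
  M_mul : ∀ f g, Bd f → Bd g → M (f * g) = M f * M g
  inj : ∀ F ∈ A.RR τ m, M (fun v => F (A.frob v)) = 0 → F = 0
  E_zero : E 0 = 1
  E_idem : ∀ a, E a * E a = E a
  lim : ∀ (ι : Type) [Fintype ι] (f : ι → A.Pl → ℂ) (a : ι → Fin m → ℤ), (∀ j, Bd (f j)) →
    ∀ G : ℕ → A.Pt → ℂ, (∀ n : ℕ, 1 ≤ n → G n ∈ A.RR τ m) →
    (∀ n : ℕ, 1 ≤ n → ∀ v, ∑ j, f j v * mon (c v) (a j) ^ n = G n (A.frob v)) →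
    ∃ h ∈ A.RR τ m, ∑ j, M (f j) * E (a j) = M fun v => h (A.frob v)
  per : ∀ a : Fin m → ℤ, ∃ q : ℕ, 1 ≤ q ∧ ∀ σ : Equiv.Perm (Fin m),
    E (a ∘ σ) * (M (fun v => mon (c v) (a ∘ σ) ^ q) - 1) = 0

attribute [instance] Lim.ring

/-- Existence of the limits for `τ`. -/
def S_LIM : Prop := ∀ (A : Aut) (τ : A.Cusp) (m M : ℕ), Ctx A τ m M → Nonempty (Lim A τ m)

/-! ## D. Patterns at special points -/

/-- Special points of `τ`. -/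
structure Spec (A : Aut) (τ : A.Cusp) (m M : ℕ) where
  v : A.Pl
  t : A.W v
  N : ℕ
  z : Fin m → ℂ
  ε : Fin m → ℤ
  y : ℝ
  N_pos : 0 < N
  N_pr : ∀ l : ℕ, l.Prime → l ∣ N → M < l
  ord : ∀ s : ℂˣ, A.eig τ ⟨v, t, s⟩ = Finset.univ.val.map fun j => z j * (s : ℂ) ^ ε j
  z_pow : ∀ j, z j ^ N = 1
  gen : Gen M fun j => z j * (eu y : ℂ) ^ ε j

/-- The points of the chain. -/
def Spec.pt {A : Aut} {τ : A.Cusp} {m M : ℕ} (S : Spec A τ m M) (n : ℕ) (y : ℝ) : A.Pt :=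
  ⟨S.v, S.t ^ n, eu y⟩

/-- The special point. -/
def Spec.p {A : Aut} {τ : A.Cusp} {m M : ℕ} (S : Spec A τ m M) : A.Pt := ⟨S.v, S.t, eu S.y⟩

/-- The eigenvalues of `τ` at the special point. -/
def Spec.c {A : Aut} {τ : A.Cusp} {m M : ℕ} (S : Spec A τ m M) : Fin m → ℂ :=
  fun j => S.z j * (eu S.y : ℂ) ^ S.ε j

/-- `B` is a pattern of `y` at a point with ordering `c`. -/
def AData.Pat (A : AData) {m : ℕ} (y : A.Cusp) (d : ℤ) (H : ℕ) (p : A.Pt) (c : Fin m → ℂ)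
    (B : Multiset (Fin m → ℤ)) : Prop :=
  (∀ a ∈ B, a ∈ Wt m d H) ∧ A.eig y p = B.map (mon c)

/-- The value at the identity does not depend on the place. -/
def S_DEG : Prop :=
  ∀ (A : Aut) (τ : A.Cusp) (m : ℕ), ∀ F ∈ A.RR τ m, ∀ v v' : A.Pl, F ⟨v, 1, 1⟩ = F ⟨v', 1, 1⟩

/-- Connectedness at the archimedean place. -/
def S_CN1 : Prop :=
  ∀ (A : Aut) (τ : A.Cusp) (m M : ℕ), Ctx A τ m M → ∀ F ∈ A.RR τ m, ∀ B : ℕ,
    (∀ x : ℝ, ∃ i : ℕ, i ≤ B ∧ F ⟨A.inf, A.u x, 1⟩ = i) →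
    ∀ x : ℝ, F ⟨A.inf, A.u x, 1⟩ = F ⟨A.inf, 1, 1⟩

/-- Connectedness and congruences at special points. -/
def S_CN2 : Prop :=
  ∀ (A : Aut) (τ : A.Cusp) (m M : ℕ), Ctx A τ m M → ∀ S : Spec A τ m M, ∀ F ∈ A.RR τ m,
    ∀ B : ℕ, B ≤ M → (∀ n y, n ∣ S.N → ∃ i : ℕ, i ≤ B ∧ F (S.pt n y) = i) →
    ∀ n y, n ∣ S.N → F (S.pt n y) = F ⟨S.v, 1, 1⟩

/-- The elements `g` of the orbits. -/
def S_ORB : Prop :=
  ∀ (A : Aut) (τ : A.Cusp) (m M : ℕ), Ctx A τ m M → ∀ L : Lim A τ m, ∀ a : Fin m → ℤ,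
    ∑ j, a j = 0 → ∃ g ∈ A.RR τ m, (∀ p, ∃ i : ℕ, i ≤ m.factorial ∧ g p = i) ∧
      (∃ K ∈ A.RR τ m, (∀ σ : Equiv.Perm (Fin m),
        L.M (fun v => K (A.frob v)) * L.E (a ∘ σ) = 0) ∧ ∀ p, g p = 0 → K p ≠ 0) ∧
      ∃ q : ℕ, 1 ≤ q ∧ ∀ p c, A.Ord τ p c →
        g p * ∏ σ : Equiv.Perm (Fin m), (mon c (a ∘ σ) ^ q - 1) = 0

/-- An element which kills the nonzero weights and does not vanish on the chains. -/
def S_KAY : Prop :=
  ∀ m H : ℕ, ∃ M₀ : ℕ, ∀ (A : Aut) (τ : A.Cusp) (M : ℕ), M₀ ≤ M → Ctx A τ m M →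
    ∀ L : Lim A τ m, ∃ K ∈ A.RR τ m,
      (∀ a ∈ Wt m 0 H, a ≠ 0 → L.M (fun v => K (A.frob v)) * L.E a = 0) ∧
      ∀ S : Spec A τ m M, ∀ n y, n ∣ S.N → K (S.pt n y) ≠ 0

/-- The multiplicity of the zero weight, first part. -/
def S_HYY : Prop :=
  ∀ m H : ℕ, ∃ M₀ : ℕ, ∀ (A : Aut) (τ : A.Cusp) (M : ℕ), M₀ ≤ M → Ctx A τ m M →
    ∀ L : Lim A τ m, ∀ y ∈ A.Irr τ m 0 H, ∃ n₀ : ℕ, ∃ K ∈ A.RR τ m,
      (∀ S : Spec A τ m M, K S.p ≠ 0) ∧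
      ∀ f : A.Pl → ℂ, Bd f →
        (∀ v, (∃ B, A.Pat y 0 H (A.frob v) (L.c v) B ∧ B.count 0 = n₀) → f v = 0) →
        L.M (fun v => K (A.frob v)) * L.M f = 0

/-- Lemma A: the multiplicity of the zero weight is the same at all special points. -/
def S_LMA : Prop :=
  ∀ m H : ℕ, ∃ M₀ : ℕ, ∀ (A : Aut) (τ : A.Cusp) (M : ℕ), M₀ ≤ M → Ctx A τ m M →
    Nonempty (Lim A τ m) → ∀ y ∈ A.Irr τ m 0 H, ∃ n₀ : ℕ, ∀ S : Spec A τ m M,
      ∀ B, A.Pat y 0 H S.p S.c B → B.count 0 = n₀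

/-- Lemma A for virtual representations. -/
def S_LMC : Prop :=
  ∀ m H : ℕ, ∃ M₀ : ℕ, ∀ (A : Aut) (τ : A.Cusp) (M : ℕ), M₀ ≤ M → Ctx A τ m M →
    Nonempty (Lim A τ m) → ∀ F ∈ A.RH τ m 0 H, ∃ n₀ : ℤ, ∀ S : Spec A τ m M,
      ∀ φ : (Fin m → ℤ) →₀ ℤ, (∀ a ∈ φ.support, a ∈ Wt m 0 H) →
        (∀ j : ℕ, 1 ≤ j → F (S.p.pow j) = ev φ fun i => S.c i ^ j) → φ 0 = n₀

/-- Lemma B: the patterns at two special points are conjugate. -/
def S_LMB : Prop :=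
  ∀ m H : ℕ, ∃ M₀ : ℕ, ∀ (A : Aut) (τ : A.Cusp) (M : ℕ), M₀ ≤ M → Ctx A τ m M →
    Nonempty (Lim A τ m) → ∀ d, ∀ y ∈ A.Irr τ m d H, ∀ S S' : Spec A τ m M,
      ∀ B B', A.Pat y d H S.p S.c B → A.Pat y d H S'.p S'.c B' →
        ∃ σ : Equiv.Perm (Fin m), B' = B.map fun a => a ∘ σ

/-- Existence and uniqueness of patterns. -/
def S_PEX : Prop :=
  ∀ (A : Aut) (τ : A.Cusp) (m : ℕ) (d : ℤ) (H : ℕ) (y : A.Cusp), y ∈ A.Irr τ m d H →
    ∀ p (c : Fin m → ℂ), A.Ord τ p c → (∃ B, A.Pat y d H p c B) ∧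
      ((∀ j, c j ≠ 0) → Gen (2 * H) c → ∀ B B', A.Pat y d H p c B → A.Pat y d H p c B' → B = B')

/-- Symmetries of the pattern at a tame point. -/
def S_STT : Prop :=
  ∀ (A : Aut) (τ : A.Cusp) (m M : ℕ) (S : Spec A τ m M), A.deg τ = m → S.ε = 0 → S.y = 0 →
    ∀ (f : A.W S.v) (q : ℕ) (γ : Equiv.Perm (Fin m)), f * S.t * f⁻¹ = S.t ^ q →
    (∀ j, S.z j ^ q = S.z (γ j)) → ∀ d H, 2 * H ≤ M → ∀ y ∈ A.Irr τ m d H, ∀ B,
      A.Pat y d H S.p S.c B → (B.map fun a => a ∘ γ) = B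

/-- Symmetry and strings of the pattern at a Steinberg point. -/
def S_STS : Prop :=
  ∀ (A : Aut) (τ : A.Cusp) (m M : ℕ) (S : Spec A τ m M), A.deg τ = m → ∀ i₀ i₁ : Fin m,
    i₀ ≠ i₁ → S.z i₀ = S.z i₁ → S.ε i₀ = 1 → S.ε i₁ = -1 →
    (∀ j, j ≠ i₀ → j ≠ i₁ → S.ε j = 0) → S.y ≠ 0 → ∀ d H, 4 * H + 4 ≤ M →
    ∀ y ∈ A.Irr τ m d H, ∀ B, A.Pat y d H S.p S.c B →
      (B.map fun a => a ∘ Equiv.swap i₀ i₁) = B ∧
      ∀ b : Fin m → ℤ, 1 ≤ b i₀ - b i₁ → B.count b ≤ B.count (b - ee i₀ + ee i₁)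

/-- The conclusion of part D at the tame point `t`: the patterns of the cuspidal representations
in `Irr d H` are invariant under the symmetric group and satisfy the string property. -/
def Aut.GPt (A : Aut) (τ : A.Cusp) (m H : ℕ) (v : A.Pl) (t : A.W v)
    (c : Fin m → ℂ) : Prop :=
  A.ab v t = 1 ∧ A.Ord τ ⟨v, t, 1⟩ c ∧
    (∀ j, c j ≠ 0) ∧ Gen (2 * H) c ∧ ∀ d, ∀ y ∈ A.Irr τ m d H, ∃ B,
      A.Pat y d H ⟨v, t, 1⟩ c B ∧ (∀ σ : Equiv.Perm (Fin m), (B.map fun a => a ∘ σ) = B) ∧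
      ∀ (b : Fin m → ℤ) (i j : Fin m), i ≠ j → 1 ≤ b i - b j →
        B.count b ≤ B.count (b - ee i + ee j)

/-- The conclusion of part D for `τ`. -/
def Aut.Good (A : Aut) (τ : A.Cusp) (m H : ℕ) : Prop :=
  A.deg τ = m ∧ (∀ d H', ∀ z ∈ A.Irr τ m d H', A.expo z = 0 ∧ A.Temp z) ∧
  ∃ (v : A.Pl) (t : A.W v) (c : Fin m → ℂ), A.GPt τ m H v t c

/-- Existence of good `τ`. -/
def S_GOO : Prop :=
  ∀ (A : Aut), (∀ k, A.HasSE k) → ∀ (m H : ℕ) (E : Finset A.Cusp), 2 ≤ m → A.one ∉ E →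
    ∃ τ, A.Good τ m H ∧ ∀ ρ ∈ E, A.Apart τ m (2 * H) ρ

/-! ## E. Last box and extraction -/

/-- The constituents of `V_nu(τ)`. -/
def S_VIC : Prop :=
  ∀ (A : Aut) (τ : A.Cusp) (m : ℕ), 2 ≤ m → A.deg τ = m → ∀ nu : Fin m → ℕ, Antitone nu →
    ∀ Q : Multiset A.Cusp, (∀ p, (A.eigs Q p).sum = schur nu (A.eig τ p)) →
    ∀ z ∈ Q, z ∈ A.Irr τ m ((∑ j, nu j : ℕ) : ℤ) (∑ j, nu j + m)

open Classical in
/-- Reciprocity: multiplicities in tensor products of tempered representations. -/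
def S_REC : Prop :=
  ∀ (A : Aut) (P Q R T U : Multiset A.Cusp),
    (∀ z ∈ P + Q + R + T + U, A.expo z = 0 ∧ A.Temp z) →
    (∀ p, (A.eigs T p).sum = (A.eigs P p).sum * (A.eigs Q p).sum) →
    (∀ p, (A.eigs U p).sum = (A.eigs (P.map A.dual) p).sum * (A.eigs R p).sum) →
    ∑ᶠ z, (T.count z * R.count z) = ∑ᶠ z, (U.count z * Q.count z)

/-- The patterns of the constituents of `V_nu(τ)` add up to the weights of `V_nu`. -/
def S_LBA : Prop :=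
  ∀ (A : Aut) (τ : A.Cusp) (m H : ℕ) (v : A.Pl) (t : A.W v)
    (c : Fin m → ℂ), 2 ≤ m → A.deg τ = m → A.GPt τ m H v t c →
    ∀ nu : Fin m → ℕ, Antitone nu → ∑ j, nu j + m ≤ H → ∀ K : (Fin m → ℤ) →₀ ℤ,
    (∀ c' : Fin m → ℂ, schur nu (Finset.univ.val.map c') = ev K c') →
    (∀ a ∈ K.support, (∀ j, 0 ≤ a j) ∧ ∑ j, a j = ∑ j, (nu j : ℤ)) →
    ∀ Q : Multiset A.Cusp, (∀ p, (A.eigs Q p).sum = schur nu (A.eig τ p)) →
    ∃ B : A.Cusp → Multiset (Fin m → ℤ),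
      (∀ z ∈ Q, A.Pat z ((∑ j, nu j : ℕ) : ℤ) H ⟨v, t, 1⟩ c (B z) ∧
        (∀ σ : Equiv.Perm (Fin m), ((B z).map fun a => a ∘ σ) = B z) ∧
        ∀ (b : Fin m → ℤ) (i j : Fin m), i ≠ j → 1 ≤ b i - b j →
          (B z).count b ≤ (B z).count (b - ee i + ee j)) ∧
      ∀ a, (Q.map fun z => ((B z).count a : ℤ)).sum = K a

/-- A constituent of `V_nu(τ)`, `nu = mu + e_r`, has one of the weights `mu + e_i`, if `V_mu(τ)`
is cuspidal. -/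
def S_LBB : Prop :=
  ∀ (A : Aut) (τ : A.Cusp) (m H : ℕ) (v : A.Pl) (t : A.W v)
    (c : Fin m → ℂ), 2 ≤ m → A.deg τ = m → A.HasSE 2 →
    (∀ d H', ∀ z ∈ A.Irr τ m d H', A.expo z = 0 ∧ A.Temp z) → A.GPt τ m H v t c →
    ∀ (mu : Fin m → ℕ) (r : Fin m), Antitone mu → Antitone (mu + Pi.single r 1) →
    ∑ j, mu j + m + 1 ≤ H →
    (∀ nu : Fin m → ℕ, Antitone nu → ∑ j, nu j = ∑ j, mu j + 1 → ∃ Q : Multiset A.Cusp,
      ∀ p, (A.eigs Q p).sum = schur nu (A.eig τ p)) →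
    ∀ x, (∀ p, A.tr x p = schur mu (A.eig τ p)) →
    ∀ Q : Multiset A.Cusp, (∀ p, (A.eigs Q p).sum = schur (mu + Pi.single r 1) (A.eig τ p)) →
    ∀ z ∈ Q, ∀ B, A.Pat z ((∑ j, mu j : ℕ) + 1 : ℤ) H ⟨v, t, 1⟩ c B →
      ∃ i, (fun j => (mu j : ℤ)) + ee i ∈ B

/-- The last box argument: `V_nu(τ)` is cuspidal. -/
def S_LBX : Prop :=
  ∀ m k H : ℕ, 2 ≤ m → k + m + 1 ≤ H → ∀ (A : Aut) (τ : A.Cusp),
    (∀ j, A.HasSE j) → (∀ j, j < k → A.HasDeg j) → A.Good τ m H →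
    ∀ nu : Fin m → ℕ, Antitone nu → ∑ j, nu j < k → ∃ x, ∀ p, A.tr x p = schur nu (A.eig τ p)

/-- The multiplicity of `det ⊗ V_kappa(τ)` in the virtual representations `V_nu(τ)` of degree
`k`. -/
def S_PRG : Prop :=
  ∀ m k H : ℕ, 2 ≤ m → m ≤ k → k + m + 1 ≤ H → ∀ (A : Aut) (τ : A.Cusp),
    (∀ j, A.HasSE j) → (∀ j, j < k → A.HasDeg j) → A.Good τ m H →
    ∀ kappa ∈ Par m (k - m), ∃ x ∈ A.Irr τ m k (k + m),
      (∀ p, A.tr x p = (A.eig τ p).prod * schur kappa (A.eig τ p)) ∧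
      ∀ nu ∈ Par m k, ∀ b : A.Cusp →₀ ℤ, (∀ z ∈ b.support, ∃ d H', z ∈ A.Irr τ m d H') →
        (∀ p, schur nu (A.eig τ p) = b.sum fun z n => (n : ℂ) * A.tr z p) →
        ((nu = fun j => kappa j + 1) → b x = 1) ∧ ((nu ≠ fun j => kappa j + 1) → b x = 0)

/-- The hermitian symmetry of `σ ⊠ x`, `x` unitary. -/
def S_RSA : Prop :=
  ∀ (A : Aut) (σ x : A.Cusp) (Q : Multiset A.Cusp), A.expo x = 0 →
    (∀ p, (A.eigs Q p).sum = A.tr σ p * A.tr x p) →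
    (Q.map fun w => A.mul (A.nrm (2 * (A.expo σ - A.expo w))) w) = Q

open Classical in
/-- Rankin-Selberg poles: `σ ⊠ x` is cuspidal, and these representations are distinct.  Here
`x i`, `i ∈ s`, is a family of unitary cuspidal representations such that `x i ⊠ dual (x j)` is
the sum of `[i = j]` copies of the trivial representation and of representations whose duals are
not twists of the constituents of the `σ ⊠ dual σ'`, `σ, σ' ∈ F`. -/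
def S_RSP : Prop :=
  ∀ (A : Aut) (F : Finset A.Cusp), A.HasSE 2 → ∀ (ι : Type) (s : Set ι) (x : ι → A.Cusp),
    (∀ i ∈ s, A.expo (x i) = 0) →
    (∀ i ∈ s, ∀ j ∈ s, ∃ T : Multiset A.Cusp,
      (∀ p, (A.eigs T p).sum = A.tr (x i) p * A.tr (A.dual (x j)) p) ∧
      (i = j → T.count A.one = 1) ∧ (i ≠ j → T.count A.one = 0) ∧
      ∀ ρ ∈ T, ρ ≠ A.one → ∀ σ ∈ F, ∀ σ' ∈ F, ∀ R : Multiset A.Cusp,
        (∀ p, (A.eigs R p).sum = A.tr σ p * A.tr (A.dual σ') p) → ∀ η ∈ R, ∀ y,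
        A.dual ρ ≠ A.mul (A.nrm y) η) →
    ∃ w : A.Cusp → ι → A.Cusp,
      (∀ σ ∈ F, ∀ i ∈ s, ∀ p, A.tr (w σ i) p = A.tr σ p * A.tr (x i) p) ∧
      ∀ σ ∈ F, ∀ σ' ∈ F, ∀ i ∈ s, ∀ j ∈ s, w σ i = w σ' j → σ = σ' ∧ i = j

/-- The twists of elements of `Irr` by elements of a finite set `F` are cuspidal and distinct if
`τ` is apart from the finite set `E` (which depends only on `F`). -/
def S_APT : Prop :=
  ∀ (A : Aut), A.HasSE 2 → ∀ F : Finset A.Cusp, ∃ E : Finset A.Cusp, A.one ∉ E ∧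
    ∀ (τ : A.Cusp) (m : ℕ) (d : ℤ) (H : ℕ), 2 ≤ m → A.deg τ = m →
      (∀ d H', ∀ z ∈ A.Irr τ m d H', A.expo z = 0 ∧ A.Temp z) →
      (∀ ρ ∈ E, A.Apart τ m (2 * H) ρ) → ∃ w : A.Cusp → A.Cusp → A.Cusp,
        (∀ σ ∈ F, ∀ z ∈ A.Irr τ m d H, ∀ p, A.tr (w σ z) p = A.tr σ p * A.tr z p) ∧
        ∀ σ ∈ F, ∀ σ' ∈ F, ∀ z ∈ A.Irr τ m d H, ∀ z' ∈ A.Irr τ m d H,
          w σ z = w σ' z' → σ = σ' ∧ z = z'

/-- General extraction: if the sums `∑ Y_nu ⊠ V_nu(τ)` over the partitions `nu` of `k` with at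
most `m` rows are isobaric for all `τ` on `GL(m)`, where the `Y_nu` are virtual, then `Y_nu` is
isobaric if `nu` has exactly `m` rows. -/
def S_XTG : Prop :=
  ∀ (A : Aut) (m k : ℕ), 2 ≤ m → m ≤ k → (∀ j, A.HasSE j) → (∀ j, j < k → A.HasDeg j) →
    ∀ Y : (Fin m → ℕ) → A.Pt → ℂ, (∀ nu ∈ Par m k, Y nu ∈ A.VV) →
    (∀ τ, A.deg τ = m → ∃ R : Multiset A.Cusp, ∀ p, (A.eigs R p).sum =
      ∑ᶠ nu ∈ Par m k, Y nu p * schur nu (A.eig τ p)) →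
    ∀ kappa ∈ Par m (k - m), ∃ Q : Multiset A.Cusp,
      ∀ p, (A.eigs Q p).sum = Y (fun j => kappa j + 1) p

/-- The induction on the degree. -/
def S_STP : Prop :=
  ∀ (A : Aut) (k : ℕ), (∀ j, A.HasSE j) → (∀ j, j < k → A.HasDeg j) → A.HasDeg k

/-- Descent for symmetric powers. -/
def S_DNS : Prop := ∀ (A : Aut) (k : ℕ), A.HasSym (k + 1) → A.HasSym k

/-- Descent for exterior powers. -/
def S_DNE : Prop := ∀ (A : Aut) (k : ℕ), A.HasExt (k + 1) → A.HasExt k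

/-- The main theorem. -/
def S_FIN : Prop :=
  ∀ A : Aut, (∀ K : ℕ, ∃ k, K ≤ k ∧ (A.HasSym k ∨ A.HasExt k)) →
    ∀ (r : ℕ) (P : Fin r → Multiset A.Cusp) (n : Fin r → ℕ)
    (lam : (i : Fin r) → Fin (n i) → ℕ), (∀ i, Antitone (lam i)) → ∀ e : Fin r → ℤ,
    ∃ Q : Multiset A.Cusp, ∀ p, (A.eigs Q p).sum =
      ∏ i, (schur (lam i) (A.eigs (P i) p) * (A.eigs (P i) p).prod ^ e i)

end

end Pool.H66.S2
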